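import Pool.Agent.Helper39.Uct.Goals2

/-!
Packet INV for `MP_d97caa_an`: invariant points exist.
-/

open scoped ComplexOrder Topology
open Filter

namespace Pool.Agent.Helper52.Uct

open Pool.Agent.Helper39.Uct Pool.Agent.Helper39.Uct.Fib

variable {Q : Type} [Group Q] {B : Type} [NonUnitalCStarAlgebra B] {G : Fib Q B}

lemma mem_one_of_star_mul {l : Q} {a b : B} (ha : a ∈ G.fib l) (hb : b ∈ G.fib l) :
    star a * b ∈ G.fib 1 := by
  have := G.mul_mem l⁻¹ l (star a) b (G.star_mem l a ha) hb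
  rwa [inv_mul_cancel] at this

lemma mem_one_of_conj {l : Q} {a c : B} (ha : a ∈ G.fib l) (hc : c ∈ G.fib 1) :
    star a * c * a ∈ G.fib 1 := by
  have h1 := G.mul_mem l⁻¹ 1 (star a) c (G.star_mem l a ha) hc
  rw [mul_one] at h1
  have := G.mul_mem l⁻¹ l (star a * c) a h1 ha
  rwa [inv_mul_cancel] at this

lemma null_left (P : PF G) (ψ : G.Pt) {w : B} (hw : ψ (star w * w) = 0) (y : B) :
    ψ (star w * y) = 0 := by
  have h := P.cs ψ w y
  rw [hw, Complex.zero_re, zero_mul] at h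
  have h2 : ‖ψ (star w * y)‖ ^ 2 = 0 := le_antisymm h (by positivity)
  exact norm_eq_zero.1 (pow_eq_zero_iff (two_ne_zero) |>.1 h2)

lemma null_right (P : PF G) (ψ : G.Pt) {w : B} (hw : ψ (star w * w) = 0) (y : B) :
    ψ (y * w) = 0 := by
  have h := P.cs ψ (star y) w
  rw [hw, Complex.zero_re, mul_zero, star_star] at h
  have h2 : ‖ψ (y * w)‖ ^ 2 = 0 := le_antisymm h (by positivity)
  exact norm_eq_zero.1 (pow_eq_zero_iff (two_ne_zero) |>.1 h2)

/-- Two unit elements of the same fibre define the same conjugate. -/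
lemma conj_eq (P : PF G) (ψ : G.Pt) {q : Q} {u v : B} (hu : u ∈ G.fib q) (hv : v ∈ G.fib q)
    (hu1 : ψ (star u * u) = 1) (hv1 : ψ (star v * v) = 1) (y : B) :
    ψ (star u * y * u) = ψ (star v * y * v) := by
  obtain ⟨ζ, hζ⟩ : ∃ ζ : ℂ, ψ (star u * v) = ζ := ⟨_, rfl⟩
  have hζ2 : ψ (star v * u) = star ζ := by
    have := P.herm ψ (star u * v)
    rw [star_mul, star_star, hζ] at this
    exact this
  have hone := P.oned ψ q u hu v hv
  rw [hζ, hζ2, hu1, hv1, mul_one] at hone
  set w : B := v - ζ • u with hwdef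
  have hw : ψ (star w * w) = 0 := by
    have hexp : star w * w = star v * v - ζ • (star v * u) - star ζ • (star u * v)
        + (star ζ * ζ) • (star u * u) := by
      rw [hwdef, star_sub, star_smul]
      simp only [sub_mul, mul_sub, smul_mul_assoc, mul_smul_comm, smul_sub, smul_smul]
      rw [mul_comm ζ (star ζ)]
      abel
    rw [hexp, map_add, map_sub, map_sub, map_smul, map_smul, map_smul, hv1, hu1, hζ, hζ2]
    simp only [smul_eq_mul, mul_one]
    rw [mul_comm (star ζ) ζ, hone]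
    ring
  have hexp2 : star v * y * v = star w * (y * v) + star ζ • ((star u * y) * w)
      + (star ζ * ζ) • (star u * y * u) := by
    rw [hwdef, star_sub, star_smul]
    simp only [sub_mul, mul_sub, smul_mul_assoc, mul_smul_comm, smul_smul, smul_sub, mul_assoc]
    abel
  rw [hexp2, map_add, map_add, map_smul, map_smul, null_left P ψ hw, null_right P ψ hw,
    mul_comm (star ζ) ζ, hone]
  simp

/-- `ψ` is invariant under `l`. -/
def InvAt (ψ : G.Pt) (l : Q) : Prop :=
  ∀ a ∈ G.fib l, ψ (star a * a) = 1 → ∀ y, ψ (star a * y * a) = ψ y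

lemma exists_unit (φ : G.Pt) {l : Q} (hl : l ∈ G.St φ) : ∃ a ∈ G.fib l, φ (star a * a) = 1 := by
  obtain ⟨⟨b, hb, hb0⟩, -⟩ := hl
  have hpos := φ.pos b
  have hre : φ (star b * b) = ((φ (star b * b)).re : ℂ) := by
    have := (Complex.nonneg_iff.1 hpos).2
    apply Complex.ext
    · simp
    · simp [← this]
  set r := (φ (star b * b)).re with hr
  have hr0 : 0 < r := by
    have h1 : 0 ≤ r := (Complex.nonneg_iff.1 hpos).1
    refine lt_of_le_of_ne h1 fun h => hb0 ?_
    rw [hre, ← h]; simp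
  refine ⟨(((Real.sqrt r)⁻¹ : ℝ) : ℂ) • b, (G.fib l).smul_mem _ hb, ?_⟩
  have h2 : star ((((Real.sqrt r)⁻¹ : ℝ) : ℂ) • b) * ((((Real.sqrt r)⁻¹ : ℝ) : ℂ) • b)
      = ((r⁻¹ : ℝ) : ℂ) • (star b * b) := by
    rw [star_smul, smul_mul_assoc, mul_smul_comm, smul_smul]
    congr 1
    rw [Complex.star_def, Complex.conj_ofReal, ← Complex.ofReal_mul, ← mul_inv,
      Real.mul_self_sqrt hr0.le]
  rw [h2, map_smul, hre, smul_eq_mul, ← Complex.ofReal_mul, inv_mul_cancel₀ hr0.ne']
  simp

/-- Conjugation by a unit element over a stabilising element. -/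
lemma exists_T (P : PF G) (φ ψ : G.Pt) (hψ : ∀ c ∈ G.fib 1, ψ c = φ c) {l : Q}
    (hl : l ∈ G.St φ) {a : B} (ha : a ∈ G.fib l) (ha1 : φ (star a * a) = 1) :
    ∃ ψ' : G.Pt, (∀ y, ψ' y = ψ (star a * y * a)) ∧ ∀ c ∈ G.fib 1, ψ' c = φ c := by
  have h1 : ψ (star a * a) = 1 := by rw [hψ _ (mem_one_of_star_mul ha ha), ha1]
  obtain ⟨ψ', h⟩ := P.move ψ l a ha (by rw [h1]; exact one_ne_zero)
  rw [h1] at h
  refine ⟨ψ', fun y => by simpa using h y, fun c hc => ?_⟩
  have h2 : ψ' c = ψ (star a * c * a) := by simpa using h c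
  rw [h2, hψ _ (mem_one_of_conj ha hc), hl.2 a ha c hc, ha1, mul_one]

/-- The step: one more invariance. -/
lemma step (P : PF G) (φ : G.Pt) (S : Set Q) (hS : ∀ s ∈ S, s ∈ G.St φ) (l : Q)
    (hl : l ∈ G.St φ) (hcomm : ∀ s ∈ S, s * l = l * s) (ψ : G.Pt)
    (hψ : ∀ c ∈ G.fib 1, ψ c = φ c) (hinv : ∀ s ∈ S, InvAt ψ s) :
    ∃ ψ' : G.Pt, (∀ c ∈ G.fib 1, ψ' c = φ c) ∧ (∀ s ∈ S, InvAt ψ' s) ∧ InvAt ψ' l := by
  obtain ⟨a, ha, ha1⟩ := exists_unit φ hl
  -- the iterates
  let X := {χ : G.Pt // (∀ c ∈ G.fib 1, χ c = φ c) ∧ ∀ s ∈ S, InvAt χ s}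
  have hstep : ∀ χ : X, ∃ χ' : X, ∀ y, χ'.1 y = χ.1 (star a * y * a) := by
    rintro ⟨χ, hχ, hχS⟩
    obtain ⟨χ', h1, h2⟩ := exists_T P φ χ hχ hl ha ha1
    refine ⟨⟨χ', h2, ?_⟩, h1⟩
    intro s hs b hb hb1 y
    have hb1' : φ (star b * b) = 1 := by rw [← h2 _ (mem_one_of_star_mul hb hb), hb1]
    have hb1'' : χ (star b * b) = 1 := by rw [hχ _ (mem_one_of_star_mul hb hb), hb1']
    have ha1'' : χ (star a * a) = 1 := by rw [hχ _ (mem_one_of_star_mul ha ha), ha1]
    rw [h1, h1]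
    have hu : b * a ∈ G.fib (s * l) := G.mul_mem s l b a hb ha
    have hv : a * b ∈ G.fib (s * l) := by
      rw [hcomm s hs]; exact G.mul_mem l s a b ha hb
    have hu1 : χ (star (b * a) * (b * a)) = 1 := by
      have := h1 (star b * b)
      rw [hb1] at this
      rw [this]
      congr 1
      simp only [star_mul, mul_assoc]
    have hv1 : χ (star (a * b) * (a * b)) = 1 := by
      have := hχS s hs b hb hb1'' (star a * a)
      rw [ha1''] at this
      rw [← this]
      congr 1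
      simp only [star_mul, mul_assoc]
    have key := conj_eq P χ hu hv hu1 hv1 y
    have e1 : star a * (star b * y * b) * a = star (b * a) * y * (b * a) := by
      simp only [star_mul, mul_assoc]
    have e2 : star (a * b) * y * (a * b) = star b * (star a * y * a) * b := by
      simp only [star_mul, mul_assoc]
    rw [e1, key, e2]
    exact hχS s hs b hb hb1'' _
  choose F hF using hstep
  let seq : ℕ → X := fun n => F^[n] ⟨ψ, hψ, hinv⟩
  have hseq : ∀ n y, (seq (n + 1)).1 y = (seq n).1 (star a * y * a) := by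
    intro n y
    simp only [seq, Function.iterate_succ_apply']
    exact hF _ y
  let m : ℕ → B →ₗ[ℂ] ℂ := fun n =>
    (((n : ℝ) + 1)⁻¹ : ℂ) • ∑ i ∈ Finset.range (n + 1), (seq i).1.toFun
  have hm : ∀ n y, m n y = (((n : ℝ) + 1)⁻¹ : ℂ) * ∑ i ∈ Finset.range (n + 1), (seq i).1 y := by
    intro n y
    simp only [m, LinearMap.smul_apply, LinearMap.sum_apply, smul_eq_mul]
  have hc : ∀ n : ℕ, ‖(((n : ℝ) + 1)⁻¹ : ℂ)‖ = ((n : ℝ) + 1)⁻¹ := by
    intro n
    rw [norm_inv]
    congr 1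
    have : (((n : ℝ) : ℂ) + 1) = (((n : ℝ) + 1 : ℝ) : ℂ) := by push_cast; ring
    rw [this, Complex.norm_real, Real.norm_of_nonneg (by positivity)]
  have hbound : ∀ n y, ‖m n y‖ ≤ ‖y‖ := by
    intro n y
    rw [hm, norm_mul, hc]
    have h1 : ‖∑ i ∈ Finset.range (n + 1), (seq i).1 y‖ ≤ ((n : ℝ) + 1) * ‖y‖ := by
      refine (norm_sum_le _ _).trans ?_
      refine (Finset.sum_le_sum fun i _ => (seq i).1.bound y).trans ?_
      simp
    calc ((n : ℝ) + 1)⁻¹ * ‖∑ i ∈ Finset.range (n + 1), (seq i).1 y‖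
        ≤ ((n : ℝ) + 1)⁻¹ * (((n : ℝ) + 1) * ‖y‖) := by
          apply mul_le_mul_of_nonneg_left h1; positivity
      _ = ‖y‖ := by
          rw [← mul_assoc, inv_mul_cancel₀ (by positivity), one_mul]
  let U : Ultrafilter ℕ := Ultrafilter.of atTop
  have hU : (U : Filter ℕ) ≤ atTop := Ultrafilter.of_le atTop
  have hlim : ∀ y : B, ∃ z : ℂ, Tendsto (fun n => m n y) U (𝓝 z) := by
    intro y
    have hcpt : IsCompact (Metric.closedBall (0 : ℂ) ‖y‖) := isCompact_closedBall _ _
    obtain ⟨z, -, hz⟩ := hcpt.ultrafilter_le_nhds (U.map (fun n => m n y)) (by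
      rw [Ultrafilter.coe_map, le_principal_iff, mem_map]
      refine Filter.univ_mem' fun n => ?_
      simpa using hbound n y)
    exact ⟨z, hz⟩
  choose lim hlim using hlim
  have hne : NeBot (U : Filter ℕ) := U.neBot
  let Λ : B →ₗ[ℂ] ℂ :=
    { toFun := lim
      map_add' := fun x y => by
        refine tendsto_nhds_unique (hlim (x + y)) ?_
        simpa only [map_add] using (hlim x).add (hlim y)
      map_smul' := fun c x => by
        refine tendsto_nhds_unique (hlim (c • x)) ?_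
        simpa only [map_smul, RingHom.id_apply] using (hlim x).const_smul c }
  have hΛ : ∀ y, Tendsto (fun n => m n y) U (𝓝 (Λ y)) := hlim
  have hmC : ∀ n, ∀ c ∈ G.fib 1, m n c = φ c := by
    intro n c hcc
    rw [hm, Finset.sum_congr rfl fun i _ => (seq i).2.1 c hcc]
    simp only [Finset.sum_const, Finset.card_range, nsmul_eq_mul]
    rw [← mul_assoc]
    push_cast
    rw [inv_mul_cancel₀ (by exact_mod_cast (by positivity : ((n : ℝ) + 1) ≠ 0)), one_mul]
  have hΛC : ∀ c ∈ G.fib 1, Λ c = φ c := by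
    intro c hcc
    refine tendsto_nhds_unique (hΛ c) ?_
    simp only [hmC _ c hcc]
    exact tendsto_const_nhds
  have hmpos : ∀ n b, 0 ≤ m n (star b * b) := by
    intro n b
    rw [hm]
    apply mul_nonneg
    · have : (((n : ℝ) : ℂ) + 1)⁻¹ = ((((n : ℝ) + 1)⁻¹ : ℝ) : ℂ) := by push_cast; ring
      rw [this]
      exact Complex.zero_le_real.2 (by positivity)
    · exact Finset.sum_nonneg fun i _ => (seq i).1.pos b
  let ψ' : G.Pt :=
    { toFun := Λ
      bound := fun b => le_of_tendsto (hΛ b).norm (Eventually.of_forall fun n => hbound n b)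
      pos := fun b => by
        have h1 := hΛ (star b * b)
        rw [Complex.nonneg_iff]
        constructor
        · exact ge_of_tendsto ((Complex.continuous_re.tendsto _).comp h1)
            (Eventually.of_forall fun n => (Complex.nonneg_iff.1 (hmpos n b)).1)
        · refine tendsto_nhds_unique ?_ ((Complex.continuous_im.tendsto _).comp h1)
          refine (tendsto_const_nhds (x := (0 : ℝ))).congr fun n => ?_
          exact (Complex.nonneg_iff.1 (hmpos n b)).2
      mult := fun c hc' c' hc'' => by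
        have h1 : c * c' ∈ G.fib 1 := by
          have := G.mul_mem 1 1 c c' hc' hc''
          rwa [mul_one] at this
        rw [hΛC _ h1, hΛC _ hc', hΛC _ hc'', φ.mult c hc' c' hc'']
      nz := by
        obtain ⟨c, hc', hc''⟩ := φ.nz
        exact ⟨c, hc', by rw [hΛC _ hc']; exact hc''⟩ }
  have hψ'Λ : ∀ y, ψ' y = Λ y := fun y => rfl
  refine ⟨ψ', hΛC, ?_, ?_⟩
  · intro s hs b hb hb1 y
    rw [hψ'Λ, hψ'Λ]
    refine tendsto_nhds_unique (hΛ _) ?_
    refine (hΛ y).congr fun n => ?_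
    rw [hm, hm]
    congr 1
    refine Finset.sum_congr rfl fun i _ => ?_
    refine ((seq i).2.2 s hs b hb ?_ y).symm
    rw [(seq i).2.1 _ (mem_one_of_star_mul hb hb), ← hΛC _ (mem_one_of_star_mul hb hb)]
    exact hb1
  · have hinva : ∀ y, ψ' (star a * y * a) = ψ' y := by
      intro y
      rw [hψ'Λ, hψ'Λ]
      have h1 : Tendsto (fun n => m n (star a * y * a) - m n y) U
          (𝓝 (Λ (star a * y * a) - Λ y)) := (hΛ _).sub (hΛ _)
      have h2 : Tendsto (fun n => m n (star a * y * a) - m n y) U (𝓝 0) := by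
        have h3 : ∀ n, ‖m n (star a * y * a) - m n y‖ ≤ ((n : ℝ) + 1)⁻¹ * (2 * ‖y‖) := by
          intro n
          rw [hm, hm, ← mul_sub, norm_mul, hc]
          apply mul_le_mul_of_nonneg_left _ (by positivity)
          have h4 : ∑ i ∈ Finset.range (n + 1), (seq i).1 (star a * y * a)
              - ∑ i ∈ Finset.range (n + 1), (seq i).1 y = (seq (n + 1)).1 y - (seq 0).1 y := by
            rw [← Finset.sum_sub_distrib, ← Finset.sum_range_sub (fun i => (seq i).1 y)]
            refine Finset.sum_congr rfl fun i _ => ?_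
            rw [hseq]
          rw [h4, two_mul]
          exact (norm_sub_le _ _).trans (add_le_add ((seq (n + 1)).1.bound y) ((seq 0).1.bound y))
        rw [tendsto_zero_iff_norm_tendsto_zero]
        have h5 : Tendsto (fun n : ℕ => ((n : ℝ) + 1)⁻¹ * (2 * ‖y‖)) atTop (𝓝 0) := by
          have := tendsto_one_div_add_atTop_nhds_zero_nat (𝕜 := ℝ)
          have h6 := this.mul_const (2 * ‖y‖)
          simpa only [one_div, zero_mul] using h6
        exact squeeze_zero (fun n => norm_nonneg _) h3 (h5.mono_left hU)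
      have := tendsto_nhds_unique h1 h2
      exact sub_eq_zero.1 this
    intro b hb hb1 y
    have ha1' : ψ' (star a * a) = 1 := by
      rw [hψ'Λ, hΛC _ (mem_one_of_star_mul ha ha), ha1]
    rw [conj_eq P ψ' hb ha hb1 ha1' y]
    exact hinva y

lemma st_congr {φ ψ : G.Pt} (h : ∀ c ∈ G.fib 1, ψ c = φ c) {l : Q} (hl : l ∈ G.St φ) :
    l ∈ G.St ψ := by
  obtain ⟨⟨b, hb, hb0⟩, h2⟩ := hl
  refine ⟨⟨b, hb, ?_⟩, ?_⟩
  · rw [h _ (mem_one_of_star_mul hb hb)]; exact hb0
  · intro b hb c hc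
    rw [h _ (mem_one_of_conj hb hc), h _ hc, h _ (mem_one_of_star_mul hb hb)]
    exact h2 b hb c hc

lemma invAt_one (P : PF G) (ψ : G.Pt) : InvAt ψ 1 := by
  intro c hc hc1 y
  have hcs : star c ∈ G.fib 1 := by
    have := G.star_mem 1 c hc
    rwa [inv_one] at this
  rw [mul_assoc, P.mulL ψ _ hcs, P.mulR ψ _ hc]
  have : ψ (star c) * ψ c = 1 := by
    rw [← ψ.mult _ hcs _ hc, hc1]
  calc ψ (star c) * (ψ y * ψ c) = ψ (star c) * ψ c * ψ y := by ring
    _ = ψ y := by rw [this, one_mul]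

lemma invAt_mul (P : PF G) (ψ : G.Pt) {l k : Q} (hl : l ∈ G.St ψ) (hk : k ∈ G.St ψ)
    (h1 : InvAt ψ l) (h2 : InvAt ψ k) : InvAt ψ (l * k) := by
  obtain ⟨a, ha, ha1⟩ := exists_unit ψ hl
  obtain ⟨b, hb, hb1⟩ := exists_unit ψ hk
  have hab : a * b ∈ G.fib (l * k) := G.mul_mem l k a b ha hb
  have e1 : ∀ y, ψ (star (a * b) * y * (a * b)) = ψ y := by
    intro y
    have e2 : star (a * b) * y * (a * b) = star b * (star a * y * a) * b := by
      simp only [star_mul, mul_assoc]
    rw [e2, h2 b hb hb1, h1 a ha ha1]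
  have hab1 : ψ (star (a * b) * (a * b)) = 1 := by
    have e2 : star (a * b) * (a * b) = star b * (star a * a) * b := by
      simp only [star_mul, mul_assoc]
    rw [e2, h2 b hb hb1, ha1]
  intro c hc hc1 y
  rw [conj_eq P ψ hc hab hc1 hab1 y, e1]

lemma invAt_inv (P : PF G) (ψ : G.Pt) {l : Q} (hl : l ∈ G.St ψ) (hl' : l⁻¹ ∈ G.St ψ)
    (h1 : InvAt ψ l) : InvAt ψ l⁻¹ := by
  obtain ⟨a, ha, ha1⟩ := exists_unit ψ hl
  intro b hb hb1 y
  have hba : b * a ∈ G.fib 1 := by
    have := G.mul_mem l⁻¹ l b a hb ha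
    rwa [inv_mul_cancel] at this
  have hba1 : ψ (star (b * a) * (b * a)) = 1 := by
    have e2 : star (b * a) * (b * a) = star a * (star b * b) * a := by
      simp only [star_mul, mul_assoc]
    rw [e2, h1 a ha ha1, hb1]
  have h3 := invAt_one P ψ (b * a) hba hba1 y
  have e2 : star (b * a) * y * (b * a) = star a * (star b * y * b) * a := by
    simp only [star_mul, mul_assoc]
  rw [e2, h1 a ha ha1] at h3
  exact h3

/-- **INV**: invariant points exist. -/
theorem inv (hPF : S_PF) : S_INV := by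
  intro Q _ B _ G hG L hL hLc φ hφ
  have P : PF G := hPF Q B G hG
  obtain ⟨S, hS⟩ := hL
  classical
  have key : ∀ T : Finset Q, (∀ t ∈ T, t ∈ L) → ∃ ψ : G.Pt, (∀ c ∈ G.fib 1, ψ c = φ c) ∧
      ∀ t ∈ T, InvAt ψ t := by
    intro T
    induction T using Finset.induction_on with
    | empty => intro _; exact ⟨φ, fun _ _ => rfl, by simp⟩
    | insert t T ht ih =>
      intro hT
      obtain ⟨ψ, hψ, hψT⟩ := ih fun t' ht' => hT t' (Finset.mem_insert_of_mem ht')
      obtain ⟨ψ', h1, h2, h3⟩ := step P φ (T : Set Q)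
        (fun s hs => hφ s (hT s (Finset.mem_insert_of_mem hs))) t
        (hφ t (hT t (Finset.mem_insert_self t T)))
        (fun s hs => hLc s (hT s (Finset.mem_insert_of_mem hs)) t
          (hT t (Finset.mem_insert_self t T))) ψ hψ (fun s hs => hψT s hs)
      refine ⟨ψ', h1, ?_⟩
      intro s hs
      rcases Finset.mem_insert.1 hs with rfl | hs
      · exact h3
      · exact h2 s hs
  obtain ⟨ψ, hψ, hψS⟩ := key S fun t ht => by
    rw [← hS]; exact Subgroup.subset_closure ht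
  have hst : ∀ l ∈ L, l ∈ G.St ψ := fun l hl => st_congr hψ (hφ l hl)
  refine ⟨ψ, hψ, ?_⟩
  have hall : ∀ l ∈ L, InvAt ψ l := by
    intro l hl
    rw [← hS] at hl
    refine Subgroup.closure_induction (p := fun x _ => InvAt ψ x) ?_ ?_ ?_ ?_ hl
    · intro x hx; exact hψS x hx
    · exact invAt_one P ψ
    · intro x y hx hy h1 h2
      rw [hS] at hx hy
      exact invAt_mul P ψ (hst x hx) (hst y hy) h1 h2
    · intro x hx h1
      rw [hS] at hx
      exact invAt_inv P ψ (hst x hx) (hst _ (L.inv_mem hx)) h1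
  exact fun l hl => hall l hl

end Pool.Agent.Helper52.Uct
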